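import Mathlib

set_option autoImplicit false

namespace Pool.Agent.H.MP_b23e6d_co

open Finset

def Inv (k W m : ℕ) (S : Finset ℕ) (H : SimpleGraph ℕ) (l : ℕ → Fin k) : Prop :=
  (∀ u v, H.Adj u v → u ∈ S ∧ v ∈ S) ∧ (m ≤ #(S.image (· % W)) → ∃ U ⊆ S,
    m ≤ #(U.image (· % W)) ∧ #(U.image (· % W)) ≤ 2 * m ∧ ∃ lab : ℕ → Fin k,
      ∀ x ∈ U, ∀ y ∈ U, lab x = lab y → l x = l y ∧ ∀ z ∉ U, H.Adj x z → H.Adj y z)

theorem closed (k W m : ℕ) (hm : 0 < m) :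
    (∀ ℓ₀ : ℕ → Fin k, Inv k W m ∅ ⊥ ℓ₀) ∧
    (∀ (i : ℕ) (ℓ₀ : ℕ → Fin k), Inv k W m {i} ⊥ ℓ₀) ∧
    (∀ (S₁ S₂ : Finset ℕ) (H₁ H₂ : SimpleGraph ℕ) (ℓ₁ ℓ₂ : ℕ → Fin k),
      Inv k W m S₁ H₁ ℓ₁ → Inv k W m S₂ H₂ ℓ₂ → Disjoint S₁ S₂ →
      Inv k W m (S₁ ∪ S₂) (H₁ ⊔ H₂) (fun v => if v ∈ S₁ then ℓ₁ v else ℓ₂ v)) ∧
    (∀ (S : Finset ℕ) (H : SimpleGraph ℕ) (ℓ₀ : ℕ → Fin k) (a b : Fin k),
      a ≠ b → Inv k W m S H ℓ₀ → Inv k W m S (H ⊔ SimpleGraph.fromRel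
        (fun u v => u ∈ S ∧ v ∈ S ∧ ℓ₀ u = a ∧ ℓ₀ v = b)) ℓ₀) ∧
    (∀ (S : Finset ℕ) (H : SimpleGraph ℕ) (ℓ₀ : ℕ → Fin k) (a b : Fin k),
      Inv k W m S H ℓ₀ → Inv k W m S H (fun v => if ℓ₀ v = a then b else ℓ₀ v)) := by
  refine ⟨fun l => ⟨by simp, fun h => absurd h (by simpa using hm.ne')⟩,
    fun i l => ⟨by simp, fun h => ⟨{i}, Subset.rfl, h, by simp; omega, l, by simp⟩⟩,
    fun S T H K l l' p q d => ?_, fun S H l a b _ p => ⟨?_, fun h => ?_⟩,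
    fun S H l a b p => ⟨p.1, fun h => ?_⟩⟩
  · have e : ∀ u v, (H ⊔ K).Adj u v → u ∈ S ∪ T ∧ v ∈ S ∪ T := by
      rintro u v (h | h)
      exacts [⟨mem_union_left _ (p.1 u v h).1, mem_union_left _ (p.1 u v h).2⟩,
        ⟨mem_union_right _ (q.1 u v h).1, mem_union_right _ (q.1 u v h).2⟩]
    refine ⟨e, fun h => ?_⟩
    by_cases h1 : m ≤ #(S.image (· % W))
    · obtain ⟨U, s, a, b, lab, c⟩ := p.2 h1
      refine ⟨U, s.trans subset_union_left, a, b, lab, fun x hx y hy r => ⟨?_, ?_⟩⟩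
      · simpa [s hx, s hy] using (c x hx y hy r).1
      · rintro z hz (g | g)
        exacts [.inl ((c x hx y hy r).2 z hz g), absurd (q.1 _ _ g).1 (disjoint_left.1 d (s hx))]
    by_cases h2 : m ≤ #(T.image (· % W))
    · obtain ⟨U, s, a, b, lab, c⟩ := q.2 h2
      refine ⟨U, s.trans subset_union_right, a, b, lab, fun x hx y hy r => ⟨?_, ?_⟩⟩
      · simpa [disjoint_right.1 d (s hx), disjoint_right.1 d (s hy)] using (c x hx y hy r).1
      · rintro z hz (g | g)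
        exacts [absurd (p.1 _ _ g).1 (disjoint_right.1 d (s hx)), .inr ((c x hx y hy r).2 z hz g)]
    refine ⟨_, Subset.rfl, h, ?_, _, fun x _ y _ r => ⟨r, fun z hz g => absurd (e _ _ g).2 hz⟩⟩
    have := card_union_le (S.image (· % W)) (T.image (· % W))
    rw [image_union]
    omega
  · rintro u v (h | ⟨-, h | h⟩)
    exacts [p.1 u v h, ⟨h.1, h.2.1⟩, ⟨h.2.1, h.1⟩]
  · obtain ⟨U, s, a', b', lab, c⟩ := p.2 h
    refine ⟨U, s, a', b', lab, fun x hx y hy r => ⟨(c x hx y hy r).1, ?_⟩⟩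
    have e := (c x hx y hy r).1
    rintro z hz (g | ⟨-, g | g⟩)
    exacts [.inl ((c x hx y hy r).2 z hz g),
      .inr ⟨fun q => hz (q ▸ hy), .inl ⟨s hy, g.2.1, e ▸ g.2.2.1, g.2.2.2⟩⟩,
      .inr ⟨fun q => hz (q ▸ hy), .inr ⟨g.1, s hy, g.2.2.1, e ▸ g.2.2.2⟩⟩]
  · obtain ⟨U, s, a', b', lab, c⟩ := p.2 h
    exact ⟨U, s, a', b', lab, fun x hx y hy r =>
      ⟨by simp only [(c x hx y hy r).1], (c x hx y hy r).2⟩⟩

def A (W s t : ℕ) : Prop := s < t ∧ (t % W = 0 ∨ t = s + W)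

theorem lower (k W R : ℕ) (hW : W = 2 * k + 6) (hR : R = 2 * k + 1) (H : SimpleGraph ℕ)
    (hH : ∀ s t, H.Adj s t ↔ s < R * W ∧ t < R * W ∧ (A W s t ∨ A W t s)) (l : ℕ → Fin k) :
    ¬ Inv k W (k + 2) (range (R * W)) H l := by
  intro h
  have W0 : 0 < W := by omega
  have vm : ∀ r c, c < W → (r * W + c) % W = c := fun r c h => by
    rw [Nat.mul_add_mod', Nat.mod_eq_of_lt h]
  have vl : ∀ r r' c, r < r' → c < W → r * W + c < r' * W := fun r r' c a b => by nlinarith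
  obtain ⟨U, s, a, b, lab, hl⟩ := h.2 (le_trans (by rw [card_range]; omega) (card_le_card
    (s := range W) fun c hc => mem_image.2 ⟨c, mem_range.2 (by
      simpa using vl 0 R c (by omega) (mem_range.1 hc)), Nat.mod_eq_of_lt (mem_range.1 hc)⟩))
  have pig : ∀ (T : Finset ℕ) (x : ℕ → ℕ), (∀ i ∈ T, x i ∈ U) →
      (∀ i ∈ T, ∀ j ∈ T, i < j → ∃ z ∉ U, ¬ (H.Adj (x i) z ↔ H.Adj (x j) z)) → #T ≤ k :=
    fun T x hx hz => by
    have w : ∀ i ∈ T, ∀ j ∈ T, i < j → lab (x i) ≠ lab (x j) := fun i hi j hj ij e => by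
      obtain ⟨z, z1, z2⟩ := hz i hi j hj ij
      exact z2 ⟨(hl _ (hx i hi) _ (hx j hj) e).2 z z1, (hl _ (hx j hj) _ (hx i hi) e.symm).2 z z1⟩
    simpa using card_le_card_of_injOn (s := T) (t := univ) (fun i => lab (x i)) (by simp)
      fun i hi j hj e => by
        by_contra q
        rcases lt_or_gt_of_ne q with q | q
        exacts [w i hi j hj q e, w j hj i hi q e.symm]
  set C := U.image (· % W) with hC
  obtain ⟨c2, m2, n2⟩ := exists_mem_notMem_of_card_lt_card (s := insert 0 C) (t := range W)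
    ((card_insert_le _ _).trans_lt (by rw [card_range]; omega))
  rw [mem_range] at m2
  rw [mem_insert, not_or] at n2
  by_cases full : ∃ c ∈ C.erase 0, ∀ r < R, r * W + c ∈ U
  · obtain ⟨c1, m1, f1⟩ := full
    have l1 : c1 < W := by
      obtain ⟨t, -, rfl⟩ := mem_image.1 (mem_erase.1 m1).2
      exact Nat.mod_lt _ W0
    have z1 := (mem_erase.1 m1).1
    have na : ∀ r c, c < W → c ≠ 0 → ¬ H.Adj (r * W) (r * W + c) := fun r c a b g => by
      have := vm r c a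
      rcases ((hH _ _).1 g).2.2 with ⟨-, g | g⟩ | ⟨g, -⟩ <;> omega
    have ya : ∀ r r' c, c < W → r < r' → r' < R → H.Adj (r * W + c) (r' * W) :=
      fun r r' c a b d => (hH _ _).2 ⟨vl r R c (by omega) a, by simpa using vl r' R 0 d W0,
        .inl ⟨vl r r' c b a, .inl (Nat.mul_mod_left _ _)⟩⟩
    have p1 := pig {r ∈ range R | r * W ∈ U} (· * W) (fun i hi => (mem_filter.1 hi).2)
      fun i _ j hj ij => ⟨i * W + c2, fun q => n2.2 (mem_image.2 ⟨_, q, vm i c2 m2⟩), fun q =>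
        na i c2 m2 n2.1 (q.2 (ya i j c2 m2 ij (mem_range.1 (mem_filter.1 hj).1)).symm)⟩
    have p2 := pig {r ∈ range R | ¬ r * W ∈ U} (· * W + c1)
      (fun i hi => f1 i (mem_range.1 (mem_filter.1 hi).1))
      fun i _ j hj ij => ⟨j * W, (mem_filter.1 hj).2, fun q =>
        na j c1 l1 z1 (q.1 (ya i j c1 l1 ij (mem_range.1 (mem_filter.1 hj).1))).symm⟩
    have := card_filter_add_card_filter_not (s := range R) fun r => r * W ∈ U
    rw [card_range] at this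
    omega
  have cut : ∀ c ∈ C.erase 0, ∃ x ∈ U, ∃ z ∉ U, x % W = c ∧ z % W = c ∧ H.Adj x z := by
    intro c hc
    by_contra! q
    obtain ⟨t, ht, rfl⟩ := mem_image.1 (mem_erase.1 hc).2
    have lc := Nat.mod_lt t W0
    have st : ∀ r < R, r * W + t % W ∈ U ↔ 0 * W + t % W ∈ U := fun r hr => by
      induction r with
      | zero => rfl
      | succ r ih =>
        have g : H.Adj (r * W + t % W) ((r + 1) * W + t % W) := (hH _ _).2
          ⟨vl r R _ (by omega) lc, vl _ R _ hr lc, .inl ⟨by nlinarith, .inr (by ring)⟩⟩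
        rw [← ih (by omega)]
        exact ⟨fun a => by_contra fun b => q _ a _ b (vm _ _ lc) (vm _ _ lc) g.symm,
          fun a => by_contra fun b => q _ a _ b (vm _ _ lc) (vm _ _ lc) g⟩
    refine full ⟨_, hc, fun r hr => (st r hr).2 ((st (t / W) ?_).1 ?_)⟩
    · exact (Nat.div_lt_iff_lt_mul W0).2 (mem_range.1 (s ht))
    · rwa [Nat.div_add_mod']
  choose! x hx z hz h1 h2 h3 using cut
  have := pig (C.erase 0) x hx fun i hi j hj ij => ⟨z i, hz i hi, fun q => by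
    have a1 := h1 j hj
    have a2 := h2 i hi
    have a3 := (mem_erase.1 hi).1
    have a4 := (mem_erase.1 hj).1
    rcases ((hH _ _).1 (q.1 (h3 i hi))).2.2 with ⟨-, g | g⟩ | ⟨-, g | g⟩
    · omega
    · rw [g, Nat.add_mod_right] at a2
      omega
    · omega
    · rw [g, Nat.add_mod_right] at a1
      omega⟩
  have := pred_card_le_card_erase (s := C) (a := 0)
  omega

end Pool.Agent.H.MP_b23e6d_co
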